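import Pool.Agent.H24.RCN.Targets

/-!
# MP_4d5ac9_nt, row NU: units of relative norm a root of unity
-/

set_option autoImplicit false

open NumberField Pool.Agent.H24.RCN

namespace Pool.Agent.H46.RCN

section

variable {L : Type} [Field L] [NumberField L]

theorem cmul (a b : 𝓞 L) : ((a * b : 𝓞 L) : L) = (a : L) * (b : L) := rfl

theorem un_coe (u : (𝓞 L)ˣ) : Un ((u : 𝓞 L) : L) := by
  have h0 : ((u : 𝓞 L) : L) ≠ 0 := by
    rw [Ne, RingOfIntegers.coe_eq_zero_iff]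
    exact u.ne_zero
  refine ⟨h0, RingOfIntegers.isIntegral_coe _, ?_⟩
  have h1 : (((u : 𝓞 L) : L))⁻¹ = ((u⁻¹ : (𝓞 L)ˣ) : 𝓞 L) := by
    rw [inv_eq_iff_eq_inv, ← one_div, eq_div_iff]
    · rw [← cmul, ← Units.val_mul, mul_inv_cancel, Units.val_one]
      rfl
    · rw [Ne, RingOfIntegers.coe_eq_zero_iff]
      exact (u⁻¹).ne_zero
  rw [h1]
  exact RingOfIntegers.isIntegral_coe _

theorem un_lift (x : L) (hx : Un x) : ∃ u : (𝓞 L)ˣ, ((u : 𝓞 L) : L) = x := by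
  obtain ⟨h0, h1, h2⟩ := hx
  refine ⟨⟨⟨x, h1⟩, ⟨x⁻¹, h2⟩, ?_, ?_⟩, rfl⟩
  · apply RingOfIntegers.ext
    exact mul_inv_cancel₀ h0
  · apply RingOfIntegers.ext
    exact inv_mul_cancel₀ h0

end

theorem pf_NU (hrk : T_RK) (hmod : T_MOD) (hfix : T_FIX) (hnpr : T_NPR) (hrb : T_HRB) :
    T_NU := by
  intro F L _ _ _ _ _ _ κ σ J hκ hE
  by_contra hcon
  push Not at hcon
  obtain ⟨M, _, _, _, c, hc, hrM, hf⟩ := hmod L
  set g : (𝓞 L)ˣ →* (𝓞 L)ˣ :=
    Units.map (RingOfIntegers.mapRingHom (σ : L →+* L) : 𝓞 L →* 𝓞 L) with hg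
  obtain ⟨f, hfc⟩ := hf g
  have hgv : ∀ u : (𝓞 L)ˣ, (((g u : (𝓞 L)ˣ) : 𝓞 L) : L) = σ ((u : 𝓞 L) : L) := fun u => rfl
  -- powers
  have hgi : ∀ (i : ℕ) (u : (𝓞 L)ˣ), ∃ w : (𝓞 L)ˣ,
      ((w : 𝓞 L) : L) = (σ ^ i) ((u : 𝓞 L) : L) ∧ (f ^ i) (c u) = c w := by
    intro i
    induction i with
    | zero => intro u; exact ⟨u, by simp, by simp⟩
    | succ i ih =>
      intro u
      obtain ⟨w, h1, h2⟩ := ih u
      refine ⟨g w, ?_, ?_⟩
      · rw [hgv, h1, pow_succ']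
        rfl
      · rw [pow_succ', Module.End.mul_apply, h2, hfc]
  have hinj : ∀ u w : (𝓞 L)ˣ, ((u : 𝓞 L) : L) = ((w : 𝓞 L) : L) → u = w := fun u w h =>
    Units.ext (RingOfIntegers.ext h)
  have hσκ : σ ^ κ = 1 := by
    have := hE.gal
    have : FiniteDimensional F L := by
      apply Module.finite_of_finrank_pos
      rw [hE.deg]
      exact hκ.pos
    have h1 := IsGalois.card_aut_eq_finrank F L
    rw [hE.deg] at h1
    rw [← h1]
    exact pow_card_eq_one'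
  have hfκ : f ^ κ = 1 := by
    ext x
    obtain ⟨u, rfl⟩ := hc.surj x
    obtain ⟨w, h1, h2⟩ := hgi κ u
    rw [hσκ] at h1
    rw [h2, hinj w u h1]
    rfl
  have hc1 : c 1 = 0 := by
    have h1 := hc.mul 1 1
    rw [mul_one] at h1
    exact left_eq_add.1 h1
  have hprod : ∀ (n : ℕ) (u : (𝓞 L)ˣ), ∃ w : (𝓞 L)ˣ,
      ((w : 𝓞 L) : L) = ∏ i ∈ Finset.range n, (σ ^ i) ((u : 𝓞 L) : L) ∧
        ∑ i ∈ Finset.range n, (f ^ i) (c u) = c w := by
    intro n u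
    induction n with
    | zero => exact ⟨1, by simp, by simp [hc1]⟩
    | succ n ih =>
      obtain ⟨w, h1, h2⟩ := ih
      obtain ⟨w', h3, h4⟩ := hgi n u
      refine ⟨w * w', ?_, ?_⟩
      · rw [Finset.prod_range_succ, ← h1, ← h3, Units.val_mul, cmul]
      · rw [Finset.sum_range_succ, h2, h4, hc.mul]
  have hmain : ∀ x : M, ∑ i ∈ Finset.range κ, (f ^ i) x = 0 → ∃ y, f y - y = x := by
    intro x hx
    obtain ⟨u, rfl⟩ := hc.surj x
    obtain ⟨w, h1, h2⟩ := hprod κ u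
    rw [h2, hc.zero, h1, ← (hnpr F L κ σ J hκ hE).1] at hx
    have hT : Tor (Algebra.norm F ((u : 𝓞 L) : L)) := by
      obtain ⟨n, hn, hn1⟩ := hx
      refine ⟨n, hn, ?_⟩
      apply (algebraMap F L).injective
      rw [map_pow, hn1, map_one]
    obtain ⟨v, t, hv, ht, huv⟩ := hcon _ (un_coe u) hT
    obtain ⟨v', rfl⟩ := un_lift v hv
    have h3 : c (u * v' * (g v')⁻¹) = 0 := by
      rw [hc.zero]
      have h4 : (((u * v' * (g v')⁻¹ : (𝓞 L)ˣ) : 𝓞 L) : L) = t := by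
        have h5 : (((u * v' * (g v')⁻¹ : (𝓞 L)ˣ) : 𝓞 L) : L) *
            σ ((v' : 𝓞 L) : L) = t * σ ((v' : 𝓞 L) : L) := by
          rw [← hgv, ← cmul, ← Units.val_mul, inv_mul_cancel_right, Units.val_mul, cmul,
            huv, hgv, mul_assoc, div_mul_cancel₀ _ hv.1]
        have h6 : σ ((v' : 𝓞 L) : L) ≠ 0 := by
          rw [Ne, EmbeddingLike.map_eq_zero_iff]
          exact hv.1
        exact mul_right_cancel₀ h6 h5
      rw [h4]
      exact ht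
    refine ⟨c v', ?_⟩
    have h4 := hc.mul (u * v' * (g v')⁻¹) (g v')
    rw [inv_mul_cancel_right, h3, zero_add, hc.mul, ← hfc] at h4
    rw [← h4, add_sub_cancel_right]
  have hker := hfix F L κ σ J M c f hκ hE hc fun u w h => by
    rw [hfc]
    congr 1
    exact hinj _ _ (by rw [h, hgv])
  have h1 := hrb M f κ (Units.rank F) hκ hfκ hmain hker
  have h2 := hrk F L κ hE.deg
  rw [hrM] at h1
  have h3 := hκ.two_le
  rw [Nat.mul_add, Nat.mul_one] at h2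
  omega

end Pool.Agent.H46.RCN
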